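import Pool.Agent.Q267.E8.Stm

/-!
# Project E8 (helper267), jobs SG1 and SG3: the sign of the character sum
-/

set_option autoImplicit false

namespace Pool.Agent.Q53.E8

open Finset Pool.Agent.Q267.CDE Pool.Agent.Q267.MW Pool.Agent.Q267.E8

theorem sum_period (f : ℕ → ℤ) (h : ℕ) (hf : ∀ i, f (i + h) = f i) :
    ∑ i ∈ range (4 * h), f i = 4 * ∑ i ∈ range h, f i := by
  have e1 : ∀ n : ℕ, ∑ i ∈ range (n * h), f i = n * ∑ i ∈ range h, f i := by
    intro n
    induction n with
    | zero => simp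
    | succ n ih =>
      have hs : ∀ m i, f (i + m * h) = f i := by
        intro m
        induction m with
        | zero => intro i; simp
        | succ m ihm =>
          intro i
          rw [show i + (m + 1) * h = (i + m * h) + h by ring, hf, ihm]
      rw [show (n + 1) * h = n * h + h by ring, sum_range_add, ih]
      have : ∀ x ∈ range h, f (n * h + x) = f x := fun x _ => by rw [add_comm]; exact hs n x
      rw [sum_congr rfl this]
      push_cast
      ring
  exact_mod_cast e1 4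

theorem sum_sign (f : ℕ → ℤ) (n : ℕ) (hf : ∀ i < n, f i = 1 ∨ f i = -1) :
    (2 : ℤ) ∣ (∑ i ∈ range n, f i) - n := by
  induction n with
  | zero => simp
  | succ n ih =>
    rw [sum_range_succ]
    have h1 := ih fun i hi => hf i (by omega)
    have h2 := hf n (by omega)
    push_cast
    rcases h2 with h2 | h2 <;> rw [h2] <;> omega

section

variable {p N : ℕ} [Fact p.Prime] {K : Type} [Field K] [Algebra (ZMod p) K] {z : K} {a : ℕ → ZMod p}

theorem two_ne (hp : p ≠ 2) : (2 : ZMod p) ≠ 0 := by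
  have hpp : p.Prime := Fact.out
  intro h
  have h1 : ((2 : ℕ) : ZMod p) = 0 := by exact_mod_cast h
  rw [ZMod.natCast_eq_zero_iff] at h1
  exact hp ((Nat.prime_dvd_prime_iff_eq hpp Nat.prime_two).1 h1)

theorem half_pow {h : ℕ} (h0 : 0 < h) (hz : IsPrimitiveRoot z (4 * h)) : z ^ (2 * h) = -1 := by
  have h1 : z ^ (2 * h) * z ^ (2 * h) = 1 := by
    rw [← pow_add, show 2 * h + 2 * h = 4 * h by ring, hz.pow_eq_one]
  rcases mul_self_eq_one_iff.1 h1 with h2 | h2
  · exfalso
    have := Nat.le_of_dvd (by omega) ((hz.pow_eq_one_iff_dvd _).1 h2)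
    omega
  · exact h2

theorem inv_half {h : ℕ} (h0 : 0 < h) (hz : IsPrimitiveRoot z (4 * h)) : z⁻¹ ^ (2 * h) = -1 := by
  rw [inv_pow, half_pow h0 hz]
  norm_num

theorem zz (hz : z ≠ 0) (n : ℕ) : z ^ n * z⁻¹ ^ n = 1 := by
  rw [← mul_pow, mul_inv_cancel₀ hz, one_pow]

theorem a_add {h : ℕ} (h0 : 0 < h) (H : Tor p (4 * h) K z a) (i : ℕ) : a (i + h) = -a i := by
  apply (algebraMap (ZMod p) K).injective
  rw [map_neg, H.val, H.val, show 2 * (i + h) = 2 * i + 2 * h by ring, pow_add, pow_add,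
    half_pow h0 H.prim, inv_half h0 H.prim]
  ring

theorem a_refl {h : ℕ} (h0 : 0 < h) (H : Tor p (4 * h) K z a) (i : ℕ) (hi : i ≤ h) :
    a (h - i) = -a i := by
  have hz : z ≠ 0 := H.prim.ne_zero (by omega)
  apply (algebraMap (ZMod p) K).injective
  rw [map_neg, H.val, H.val]
  have e1 : z ^ (2 * (h - i)) = -z⁻¹ ^ (2 * i) := by
    have e2 : z ^ (2 * (h - i)) * z ^ (2 * i) = -1 := by
      rw [← pow_add, show 2 * (h - i) + 2 * i = 2 * h by omega, half_pow h0 H.prim]
    calc z ^ (2 * (h - i)) = z ^ (2 * (h - i)) * z ^ (2 * i) * z⁻¹ ^ (2 * i) := by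
          rw [mul_assoc, zz hz, mul_one]
      _ = -z⁻¹ ^ (2 * i) := by rw [e2]; ring
  have e3 : z⁻¹ ^ (2 * (h - i)) = -z ^ (2 * i) := by
    have e2 : z⁻¹ ^ (2 * (h - i)) * z⁻¹ ^ (2 * i) = -1 := by
      rw [← pow_add, show 2 * (h - i) + 2 * i = 2 * h by omega, inv_half h0 H.prim]
    calc z⁻¹ ^ (2 * (h - i)) = z⁻¹ ^ (2 * (h - i)) * z⁻¹ ^ (2 * i) * z ^ (2 * i) := by
          rw [mul_assoc, mul_comm (z⁻¹ ^ (2 * i)), zz hz, mul_one]
      _ = -z ^ (2 * i) := by rw [e2]; ring
  rw [e1, e3]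
  ring

theorem a_zero (H : Tor p N K z a) : a 0 = 2 := by
  apply (algebraMap (ZMod p) K).injective
  rw [H.val, map_ofNat]
  norm_num

theorem a_mul (hN : 0 < N) (H : Tor p N K z a) (i : ℕ) :
    z ^ (2 * i) * algebraMap (ZMod p) K (a i) = z ^ (4 * i) + 1 := by
  have hz : z ≠ 0 := H.prim.ne_zero (by omega)
  rw [H.val, mul_add, zz hz, ← pow_add, show 2 * i + 2 * i = 4 * i by ring]

theorem a_ne (hN : 0 < N) (H : Tor p N K z a) (i : ℕ) (hi : ¬ N ∣ 8 * i) : a i ≠ 0 := by
  intro h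
  apply hi
  have h1 := a_mul hN H i
  rw [h, map_zero, mul_zero] at h1
  have h2 : z ^ (4 * i) = -1 := by linear_combination -h1
  rw [← H.prim.pow_eq_one_iff_dvd, show 8 * i = 4 * i + 4 * i by ring, pow_add, h2]
  norm_num

theorem f_sign (hN : 0 < N) (H : Tor p N K z a) (i : ℕ) (hi : ¬ N ∣ 8 * i) :
    (-1) ^ i * quadraticChar (ZMod p) (a i) = 1 ∨ (-1) ^ i * quadraticChar (ZMod p) (a i) = -1 := by
  rcases quadraticChar_dichotomy (a_ne hN H i hi) with h | h <;> rw [h] <;>
    rcases neg_one_pow_eq_or ℤ i with h' | h' <;> rw [h'] <;> simp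

end

theorem ringChar_ne (p : ℕ) (hp : p ≠ 2) : ringChar (ZMod p) ≠ 2 := by
  rw [ZMod.ringChar_zmod_n]
  exact hp

theorem sg1 : S_SG1 := by
  intro p q _ K _ _ _ z a hp hq H
  have hp2 : p ≠ 2 := by omega
  have H' : Tor p (4 * (2 * q)) K z a := by
    rw [show 4 * (2 * q) = 8 * q by ring]; exact H
  have hm1 : quadraticChar (ZMod p) (-1) = 1 := by
    rw [quadraticChar_neg_one (ringChar_ne p hp2), ZMod.card]
    exact ZMod.χ₄_nat_one_mod_four (by omega)
  have h2 : quadraticChar (ZMod p) 2 = 1 := by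
    rw [quadraticChar_two (ringChar_ne p hp2), ZMod.card, ZMod.χ₈_nat_eq_if_mod_eight,
      if_neg (by omega), if_pos (by omega)]
  set f : ℕ → ℤ := fun i => (-1) ^ i * quadraticChar (ZMod p) (a i) with hf
  have hper : ∀ i, f (i + 2 * q) = f i := by
    intro i
    simp only [hf]
    rw [a_add (by omega) H' i, neg_eq_neg_one_mul (a i), map_mul, hm1, one_mul, pow_add, pow_mul (-1 : ℤ) 2 q]
    norm_num
  have hrefl : ∀ i ≤ 2 * q, f (2 * q - i) = f i := by
    intro i hi
    simp only [hf]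
    rw [a_refl (by omega) H' i hi, neg_eq_neg_one_mul (a i), map_mul, hm1, one_mul]
    have e : (-1 : ℤ) ^ (2 * q - i) = (-1) ^ i := by
      have e1 : (-1 : ℤ) ^ (2 * q - i) * (-1) ^ i = 1 := by
        rw [← pow_add, show 2 * q - i + i = 2 * q by omega, pow_mul]; norm_num
      rcases neg_one_pow_eq_or ℤ i with h' | h' <;> rw [h'] at e1 ⊢ <;> linarith
    rw [e]
  have h0 : f 0 = 1 := by
    simp only [hf]
    rw [a_zero H, h2]
    norm_num
  have hq0 : f q = 0 := by
    simp only [hf]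
    have e := a_mul (by omega) H' q
    rw [show 4 * q = 2 * (2 * q) by ring, half_pow (by omega) H'.prim] at e
    have hz : z ≠ 0 := H.prim.ne_zero (by omega)
    have e2 : algebraMap (ZMod p) K (a q) = 0 := by
      rcases mul_eq_zero.1 (e.trans (by norm_num)) with h | h
      · exact absurd h (pow_ne_zero _ hz)
      · exact h
    have e3 : a q = 0 := (map_eq_zero _).1 e2
    rw [e3]
    simp
  have hsign : ∀ i < q - 1, f (i + 1) = 1 ∨ f (i + 1) = -1 := by
    intro i hi
    refine f_sign (by omega) H (i + 1) ?_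
    intro hd
    have := Nat.le_of_dvd (by omega) hd
    omega
  have hT : T p (8 * q) a = 4 * ∑ i ∈ range (2 * q), f i := by
    rw [← sum_period f (2 * q) hper, show 4 * (2 * q) = 8 * q by ring]
    rfl
  obtain ⟨r, rfl⟩ : ∃ r, q = r + 1 := ⟨q - 1, by omega⟩
  have hS : ∑ i ∈ range (2 * (r + 1)), f i = 1 + 2 * ∑ i ∈ range r, f (i + 1) := by
    rw [show 2 * (r + 1) = (r + (1 + r)) + 1 by ring, sum_range_succ', h0, sum_range_add, sum_range_add,
      sum_range_one]
    have e1 : ∑ x ∈ range r, f (r + (1 + x) + 1) = ∑ x ∈ range r, f (x + 1) := by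
      rw [← sum_range_reflect]
      refine sum_congr rfl fun i hi => ?_
      have hi' : i < r := mem_range.1 hi
      rw [← hrefl (i + 1) (by omega)]
      congr 1
      omega
    rw [e1, show r + 0 + 1 = r + 1 by ring, hq0]
    ring
  refine ⟨_, hT, ?_⟩
  rw [hS]
  have h4 := sum_sign (fun i => f (i + 1)) r (fun i hi => hsign i (by omega))
  obtain ⟨s, hs⟩ := h4
  have h5 : ∑ i ∈ range r, f (i + 1) = r + 2 * s := by linarith
  rw [h5]
  rcases Nat.even_or_odd' r with ⟨m, hm | hm⟩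
  · subst hm
    rw [pow_succ, pow_mul]
    norm_num
    omega
  · subst hm
    rw [show 2 * m + 1 + 1 = 2 * (m + 1) by ring, pow_mul]
    norm_num
    omega

theorem sg3 : S_SG3 := by
  intro p q _ K _ _ _ z a hp hq H
  have hp2 : p ≠ 2 := by omega
  have H' : Tor p (4 * (2 * q + 1)) K z a := by
    rw [show 4 * (2 * q + 1) = 8 * q + 4 by ring]; exact H
  have hm1 : quadraticChar (ZMod p) (-1) = -1 := by
    rw [quadraticChar_neg_one (ringChar_ne p hp2), ZMod.card]
    exact ZMod.χ₄_nat_three_mod_four (by omega)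
  have h2 : quadraticChar (ZMod p) 2 = -1 := by
    rw [quadraticChar_two (ringChar_ne p hp2), ZMod.card, ZMod.χ₈_nat_eq_if_mod_eight,
      if_neg (by omega), if_neg (by omega)]
  set f : ℕ → ℤ := fun i => (-1) ^ i * quadraticChar (ZMod p) (a i) with hf
  have hper : ∀ i, f (i + (2 * q + 1)) = f i := by
    intro i
    simp only [hf]
    rw [a_add (by omega) H' i, neg_eq_neg_one_mul (a i), map_mul, hm1, pow_add, pow_succ (-1 : ℤ) (2 * q),
      pow_mul]
    norm_num
  have hrefl : ∀ i ≤ 2 * q + 1, f (2 * q + 1 - i) = f i := by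
    intro i hi
    simp only [hf]
    rw [a_refl (by omega) H' i hi, neg_eq_neg_one_mul (a i), map_mul, hm1]
    have e : (-1 : ℤ) ^ (2 * q + 1 - i) = -(-1) ^ i := by
      have e1 : (-1 : ℤ) ^ (2 * q + 1 - i) * (-1) ^ i = -1 := by
        rw [← pow_add, show 2 * q + 1 - i + i = 2 * q + 1 by omega, pow_succ, pow_mul]; norm_num
      rcases neg_one_pow_eq_or ℤ i with h' | h' <;> rw [h'] at e1 ⊢ <;> linarith
    rw [e]
    ring
  have h0 : f 0 = -1 := by
    simp only [hf]
    rw [a_zero H, h2]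
    norm_num
  have hsign : ∀ i < q, f (i + 1) = 1 ∨ f (i + 1) = -1 := by
    intro i hi
    refine f_sign (by omega) H (i + 1) ?_
    intro hd
    obtain ⟨c, hc⟩ := hd
    have hc1 : 2 * (i + 1) = (2 * q + 1) * c := by
      have : 4 * (2 * (i + 1)) = 4 * ((2 * q + 1) * c) := by linarith
      omega
    rcases Nat.eq_zero_or_pos c with h | h
    · subst h; omega
    · rcases Nat.lt_or_ge c 2 with h3 | h3
      · have : c = 1 := by omega
        subst this
        omega
      · have : (2 * q + 1) * 2 ≤ (2 * q + 1) * c := Nat.mul_le_mul_left _ h3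
        omega
  have hT : T p (8 * q + 4) a = 4 * ∑ i ∈ range (2 * q + 1), f i := by
    rw [← sum_period f (2 * q + 1) hper, show 4 * (2 * q + 1) = 8 * q + 4 by ring]
    rfl
  have hS : ∑ i ∈ range (2 * q + 1), f i = -1 + 2 * ∑ i ∈ range q, f (i + 1) := by
    rw [show 2 * q + 1 = (q + q) + 1 by ring, sum_range_succ', h0, sum_range_add]
    have e1 : ∑ x ∈ range q, f (q + x + 1) = ∑ x ∈ range q, f (x + 1) := by
      rw [← sum_range_reflect]
      refine sum_congr rfl fun i hi => ?_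
      have hi' : i < q := mem_range.1 hi
      rw [← hrefl (i + 1) (by omega)]
      congr 1
      omega
    rw [e1]
    ring
  refine ⟨_, hT, ?_⟩
  rw [hS]
  obtain ⟨s, hs⟩ := sum_sign (fun i => f (i + 1)) q hsign
  have h5 : ∑ i ∈ range q, f (i + 1) = q + 2 * s := by linarith
  rw [h5]
  rcases Nat.even_or_odd' q with ⟨m, hm | hm⟩
  · subst hm
    rw [pow_mul]
    norm_num
    omega
  · subst hm
    rw [pow_succ, pow_mul]
    norm_num
    omega

end Pool.Agent.Q53.E8
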